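import Pool.Agent.Q229.MW.Defs
import Pool.Agent.NPC.Dec
import Pool.Agent.H671R2.CK.K3

/-!
# Auxiliary definitions: disjoint unions, canonical formulas
-/

set_option autoImplicit false

namespace Pool.Agent.Q229.MW

open Pool.Agent.NPC

/-- the copy number `i` of a graph among `t` -/
def shift (t i : ℕ) (G : Graph) : Graph :=
  (G.1.map fun v => v * t + i, G.2.map fun e => (e.1 * t + i, e.2 * t + i))

/-- the disjoint union of a list of graphs -/
def dunion (Gs : List Graph) : Graph :=
  (Gs.zipIdx.flatMap fun p => (shift Gs.length p.2 p.1).1,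
    Gs.zipIdx.flatMap fun p => (shift Gs.length p.2 p.1).2)

/-- the variables of a formula, without repetitions -/
def varList (φ : CNF) : List ℕ := (φ.flatten.map Prod.fst).dedup

/-- The canonical form of a formula: the variables are renamed to `0, 1, …`, and repetitions of
clauses are removed. -/
def canon (φ : CNF) : CNF :=
  (φ.map fun C => C.map fun l => ((varList φ).idxOf l.1, l.2)).dedup

/-- is no clause of `φ` falsified by the partial assignment `α` (a list of literals)? -/
def okNode (φ : CNF) (α : List (ℕ × Bool)) : Bool :=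
  φ.all fun D => !(D.all fun l => decide ((l.1, !l.2) ∈ α))

/-- the labels of the nodes whose partial assignment falsifies no clause of `φ` -/
def okLabels (φ : CNF) (L : List (ℕ × List (ℕ × Bool))) : List ℕ :=
  (L.filter fun p => okNode φ p.2).map Prod.fst

/-- The statement that having no `k`-clique has certificates, with advice: on typed data. -/
def CliqueAdvice : Prop :=
  ∃ (β γ : Type) (_ : TEnc β) (_ : TDec β) (_ : TEnc γ) (_ : TDec γ)
    (V : ((Graph × ℕ) × β) × γ → Bool) (h : ℕ → ℕ) (c : ℕ), Poly V ∧
    ∀ k ℓ : ℕ, ∃ a : β, sz a ≤ h k * (ℓ + 1) ^ c ∧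
      ∀ G : Graph, sz (G, k) ≤ ℓ →
        (¬ HasClique G k ↔ ∃ w : γ, sz w ≤ h k * (ℓ + 1) ^ c ∧ V (((G, k), a), w) = true)

end Pool.Agent.Q229.MW
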