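import Pool.Agent.Q229.MW.Lem
import Pool.Agent.H609R2.NPClosure
import Pool.Agent.H671R2.Search

/-!
# The lemma of Fortnow and Santhanam at fixed `k`
-/

set_option autoImplicit false

namespace Pool.Agent.Q229.MW

open Pool.Agent.NPC Pool.Agent.CK

/-- Having no `k`-clique has certificates, with advice, on typed data. -/
def CliqueAdv : Prop :=
  ∃ (β γ : Type) (_ : TEnc β) (_ : TDec β) (_ : TEnc γ) (_ : TDec γ)
    (V : ((Graph × ℕ) × β) × γ → Bool) (h : ℕ → ℕ) (c : ℕ), Poly V ∧
    ∀ k ℓ : ℕ, ∃ a : β, sz a ≤ h k * (ℓ + 1) ^ c ∧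
      ∀ G : Graph, sz (G, k) ≤ ℓ →
        (¬ HasClique G k → ∃ w : γ, sz w ≤ h k * (ℓ + 1) ^ c ∧ V (((G, k), a), w) = true) ∧
        ∀ w : γ, V (((G, k), a), w) = true → ¬ HasClique G k

/-- the test -/
def caTest (F : List Bool → List Bool)
    (z : ((Graph × ℕ) × (List Bool × List (List Bool))) × List Graph) : Bool :=
  decide (z.1.1.1 ∈ z.2) &&
    decide (F (pairBits z.1.2.1 (bits (dunion z.2, z.1.1.2))) ∈ z.1.2.2)

theorem poly_caTest {F : List Bool → List Bool} (hF : PolyTime F) : Poly (caTest F) := by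
  have hF' := poly_of_polyTime hF
  have h1 : Poly (fun z : ((Graph × ℕ) × (List Bool × List (List Bool))) × List Graph =>
      (dunion z.2, z.1.1.2)) :=
    Poly.pair (U3.comp (Poly.snd Poly.id)) (Poly.snd (Poly.fst (Poly.fst Poly.id)))
  have h2 : Poly (fun z : ((Graph × ℕ) × (List Bool × List (List Bool))) × List Graph =>
      pairBits z.1.2.1 (bits (dunion z.2, z.1.1.2))) :=
    poly_pairBits.comp (Poly.pair (Poly.fst (Poly.snd (Poly.fst Poly.id))) (R671.poly_bits.comp h1))
  exact Poly.and (Poly.dec_mem (Poly.fst (Poly.fst (Poly.fst Poly.id))) (Poly.snd Poly.id))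
    (Poly.dec_mem (hF'.comp h2) (Poly.snd (Poly.snd (Poly.fst Poly.id))))

/-- the number of bit strings with at most `m` bits -/
theorem card_strings (R : Finset (List Bool)) (m : ℕ) (h : ∀ b ∈ R, b.length ≤ m) :
    R.card ≤ 2 ^ (m + 1) := by
  have h2 : R ⊆ (Finset.range (m + 1)).biUnion K3_str := by
    intro x hx
    rw [Finset.mem_biUnion]
    refine ⟨x.length, ?_, K3_mem_str.2 rfl⟩
    rw [Finset.mem_range]
    have := h x hx
    omega
  refine le_trans (Finset.card_le_card h2) (le_trans Finset.card_biUnion_le ?_)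
  refine le_trans (Finset.sum_le_sum fun k _ => K3_card_str k) ?_
  have h3 : ∀ n : ℕ, ∑ k ∈ Finset.range n, 2 ^ k ≤ 2 ^ n := by
    intro n
    induction n with
    | zero => simp
    | succ n ih => rw [Finset.sum_range_succ, pow_succ]; omega
  exact h3 _

/-- the graphs without a `k`-clique and with short codes -/
theorem finite_noClique (k ℓ : ℕ) : {G : Graph | sz (G, k) ≤ ℓ ∧ ¬ HasClique G k}.Finite := by
  have h1 : ((fun G : Graph => bits (G, k)) ⁻¹'
      ((Finset.range (ℓ + 1)).biUnion K3_str : Finset (List Bool))).Finite := by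
    refine Set.Finite.preimage ?_ (Finset.finite_toSet _)
    intro a _ b _ hab
    have := bits_injective hab
    exact (Prod.ext_iff.1 this).1
  refine h1.subset ?_
  rintro G ⟨hG, -⟩
  rw [Set.mem_preimage, Finset.mem_coe, Finset.mem_biUnion]
  refine ⟨(bits (G, k)).length, ?_, K3_mem_str.2 rfl⟩
  rw [Finset.mem_range, bits_length]
  omega

theorem clique_advice (δ : ℝ) (hδ : 0 < δ) (h : Compression δ) : CliqueAdv := by
  classical
  obtain ⟨A, π, h, F, hF, hA⟩ := h
  obtain ⟨C, hC1, hC⟩ := U2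
  obtain ⟨c, hc⟩ := TH (min δ (1 / 2)) (lt_min hδ (by norm_num)) (min_le_right _ _) C hC1
  choose H hH using hc
  refine ⟨List Bool × List (List Bool), List Graph, inferInstance, inferInstance, inferInstance,
    inferInstance, caTest F,
    fun k => (4 * (π k).length + 8) * (4 * H (h k) + 4), c + 1, poly_caTest hF, fun k ℓ => ?_⟩
  obtain ⟨t, ht1, htH, hst⟩ := hH (h k) ℓ
  set L' : ℕ := C * (t + 1) * (ℓ + 1) * (t.size + 1) with hL'
  have hL'1 : 1 ≤ L' := by
    rw [hL']
    have : 1 ≤ (t + 1) * (ℓ + 1) * (t.size + 1) := Nat.one_le_iff_ne_zero.2 (by positivity)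
    nlinarith
  set S : Finset Graph := (finite_noClique k ℓ).toFinset with hS
  have hSm : ∀ {G : Graph}, G ∈ S ↔ sz (G, k) ≤ ℓ ∧ ¬ HasClique G k := by
    intro G
    rw [hS, Set.Finite.mem_toFinset]
    rfl
  have hScard : S.card ≤ 2 ^ (ℓ + 1) := by
    have h1 : S.card = (S.image fun G => bits (G, k)).card := by
      refine (Finset.card_image_of_injective _ ?_).symm
      intro a b hab
      exact (Prod.ext_iff.1 (bits_injective hab)).1
    rw [h1]
    refine card_strings _ _ ?_
    intro b hb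
    obtain ⟨G, hG, rfl⟩ := Finset.mem_image.1 hb
    rw [bits_length]
    exact (hSm.1 hG).1
  let comp : (Fin t → Graph) → List Bool :=
    fun v => F (pairBits (π k) (bits (dunion (List.ofFn v), k)))
  have hne : ∀ v : Fin t → Graph, List.ofFn v ≠ [] := by
    intro v h
    have := congrArg List.length h
    simp at this
    omega
  have hmem : ∀ v : Fin t → Graph, (∀ i, v i ∈ S) → ∀ G ∈ List.ofFn v,
      sz (G, k) ≤ ℓ ∧ ¬ HasClique G k := by
    intro v hv G hG
    rw [List.mem_ofFn] at hG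
    obtain ⟨i, rfl⟩ := hG
    exact hSm.1 (hv i)
  set R : Finset (List Bool) := (Fintype.piFinset (fun _ : Fin t => S)).image comp with hR
  -- the length of the compressed instances
  have hlen : ∀ v : Fin t → Graph, (∀ i, v i ∈ S) → (comp v).length + 1 ≤ t := by
    intro v hv
    have h1 := (hA (dunion (List.ofFn v)) k).2
    have h2 := hC (List.ofFn v) k ℓ (hne v) (fun G hG => (hmem v hv G hG).1)
    rw [List.length_ofFn] at h2
    rw [bits_length] at h1
    have h3 : (1 : ℝ) ≤ (sz (dunion (List.ofFn v), k) : ℝ) := by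
      exact_mod_cast sz_pos _
    have h4 : ((sz (dunion (List.ofFn v), k) : ℕ) : ℝ) ^ (1 - δ) ≤
        (L' : ℝ) ^ (1 - min δ (1 / 2)) := by
      refine (Real.rpow_le_rpow_of_exponent_le h3
        (sub_le_sub_left (min_le_left δ (1 / 2)) 1)).trans ?_
      refine Real.rpow_le_rpow (by positivity) (by exact_mod_cast h2) ?_
      have := min_le_right δ (1 / 2 : ℝ)
      linarith
    have h5 : ((comp v).length : ℝ) ≤ (h k : ℝ) * (L' : ℝ) ^ (1 - min δ (1 / 2)) :=
      h1.trans (mul_le_mul_of_nonneg_left h4 (by positivity))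
    have h6 : ((comp v).length : ℝ) + 1 ≤ t := by
      have := hst
      linarith
    exact_mod_cast h6
  have hRlen : ∀ b ∈ R, b.length + 1 ≤ t := by
    intro b hb
    obtain ⟨v, hv, rfl⟩ := Finset.mem_image.1 hb
    exact hlen v (Fintype.mem_piFinset.1 hv)
  obtain ⟨Y, hY, hYc⟩ := cover S (ℓ + 1) t t hScard comp R
    (by
      have := card_strings R (t - 1) (fun b hb => by have := hRlen b hb; omega)
      rwa [Nat.sub_add_cancel ht1] at this)
    (fun v hv => Finset.mem_image.2 ⟨v, Fintype.mem_piFinset.2 hv, rfl⟩) ht1 le_rfl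
  have hpow : (ℓ + 1) ^ (c + 1) = (ℓ + 1) * (ℓ + 1) ^ c := by rw [pow_succ, mul_comm]
  have h1p : 1 ≤ (ℓ + 1) ^ c := Nat.one_le_pow _ _ (by omega)
  refine ⟨(π k, (Y ∩ R).toList), ?_, fun G hG => ⟨fun hnc => ?_, ?_⟩⟩
  · -- the length of the advice
    have h1 : sz (Y ∩ R).toList ≤ (Y ∩ R).toList.length * (4 * t + 1) + 1 := by
      refine sz_le_length_mul _ _ fun a ha => ?_
      rw [Finset.mem_toList, Finset.mem_inter] at ha
      have h2 := sz_listBool_le a
      have h3 := hRlen a ha.2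
      omega
    rw [Finset.length_toList] at h1
    have h2 : (Y ∩ R).card ≤ ℓ + 2 :=
      le_trans (Finset.card_le_card Finset.inter_subset_left) hY
    have h3 := sz_listBool_le (π k)
    have h4 : (Y ∩ R).card * (4 * t + 1) ≤ (ℓ + 2) * (4 * (H (h k) * (ℓ + 1) ^ c) + 1) :=
      Nat.mul_le_mul h2 (by omega)
    rw [sz_pair]
    simp only
    rw [hpow]
    generalize (ℓ + 1) ^ c = P at *
    have h5 : sz (π k) + sz (Y ∩ R).toList + 1 ≤
        4 * (π k).length + 1 + ((ℓ + 2) * (4 * (H (h k) * P) + 1) + 1) + 1 := by omega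
    refine h5.trans ?_
    nlinarith [Nat.zero_le (H (h k) * P), Nat.zero_le ((π k).length),
      Nat.zero_le (H (h k) * P * ℓ), Nat.zero_le ((π k).length * (H (h k) * P) * ℓ),
      Nat.zero_le ((π k).length * P * ℓ), Nat.zero_le ((π k).length * (H (h k) * P)),
      Nat.zero_le ((π k).length * (P - 1)), Nat.zero_le (ℓ * (P - 1)), h1p]
  · obtain ⟨v, hv, ⟨i, hi⟩, hvY⟩ := hYc G (hSm.2 ⟨hG, hnc⟩)
    refine ⟨List.ofFn v, ?_, ?_⟩
    · have h1 : sz (List.ofFn v) ≤ (List.ofFn v).length * (ℓ + 1) + 1 := by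
        refine sz_le_length_mul _ _ fun a ha => ?_
        have h2 := (hmem v hv a ha).1
        rw [sz_pair] at h2
        omega
      rw [List.length_ofFn] at h1
      have h2 : t * (ℓ + 1) ≤ (H (h k) * (ℓ + 1) ^ c) * (ℓ + 1) := Nat.mul_le_mul_right _ htH
      simp only
      rw [hpow]
      generalize (ℓ + 1) ^ c = P at *
      refine h1.trans ((Nat.add_le_add_right h2 1).trans ?_)
      nlinarith [Nat.zero_le (H (h k) * P), Nat.zero_le ((π k).length),
        Nat.zero_le (H (h k) * P * ℓ), Nat.zero_le ((π k).length * (H (h k) * P) * ℓ),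
        Nat.zero_le ((π k).length * P * ℓ), Nat.zero_le ((π k).length * (H (h k) * P)),
        Nat.zero_le ((π k).length * P), Nat.zero_le (ℓ * P), h1p]
    · unfold caTest
      rw [Bool.and_eq_true, decide_eq_true_eq, decide_eq_true_eq]
      refine ⟨List.mem_ofFn.2 ⟨i, hi⟩, ?_⟩
      rw [Finset.mem_toList, Finset.mem_inter]
      exact ⟨hvY, Finset.mem_image.2 ⟨v, Fintype.mem_piFinset.2 hv, rfl⟩⟩
  · intro w hw hcl
    unfold caTest at hw
    rw [Bool.and_eq_true, decide_eq_true_eq, decide_eq_true_eq, Finset.mem_toList,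
      Finset.mem_inter] at hw
    obtain ⟨hGw, -, hwR⟩ := hw
    simp only at hGw hwR
    obtain ⟨v, hv, hvw⟩ := Finset.mem_image.1 hwR
    have h1 : HasClique (dunion w) k :=
      (U1 w (List.ne_nil_of_mem hGw) k).2 ⟨G, hGw, hcl⟩
    have h2 : F (pairBits (π k) (bits (dunion w, k))) ∈ A := (hA (dunion w) k).1.1 h1
    rw [← hvw] at h2
    have h3 : HasClique (dunion (List.ofFn v)) k := (hA (dunion (List.ofFn v)) k).1.2 h2
    obtain ⟨G', hG', hc'⟩ := (U1 _ (hne v) k).1 h3
    exact (hmem v (Fintype.mem_piFinset.1 hv) G' hG').2 hc'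

end Pool.Agent.Q229.MW
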