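import Pool.Agent.NPC.Defs

/-!
# Parameterized problems, `W[1]`, `M[1]`, compression, nondeterminism with advice

Polynomial time is that of Mathlib's Turing machines (`PolyTime`); `bits` is the standard coding of
structured data by bit strings, `pairBits` codes a pair of bit strings as a bit string.
-/

set_option autoImplicit false

namespace Pool.Agent.Q229.MW

open Pool.Agent.NPC

/-- A parameterized problem: the set of the yes-instances, and the parameter of every instance. -/
structure PProb where
  /-- the yes-instances -/
  yes : Set (List Bool)
  /-- the parameter of an instance -/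
  param : List Bool → ℕ

open Classical in
/-- The parameterized problem given by a property `P` and a parameter `κ` of the elements of an
encodable type. Strings which are not codes are no-instances, with parameter `0`. -/
noncomputable def PProb.ofCodes {α : Type} [TEnc α] (P : α → Prop) (κ : α → ℕ) : PProb where
  yes := lang P
  param x := if h : ∃ a : α, bits a = x then κ h.choose else 0

/-- The parameter is computable in polynomial time. -/
def PProb.PolyParam (Q : PProb) : Prop := PolyTime fun x => bits (Q.param x)

/-- Fpt many-one reductions: after a computable precomputation `π` on the parameter, the reduction is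
computed in polynomial time (that is, in time `f (parameter) * length ^ O(1)`, with `f` computable),
and the new parameter is bounded by a computable function `g` of the parameter. -/
def FptReduces (Q Q' : PProb) : Prop :=
  ∃ (π : ℕ → List Bool) (g : ℕ → ℕ) (F : List Bool → List Bool),
    Computable π ∧ Computable g ∧ PolyTime F ∧
      ∀ x, (x ∈ Q.yes ↔ F (pairBits (π (Q.param x)) x) ∈ Q'.yes) ∧
        Q'.param (F (pairBits (π (Q.param x)) x)) ≤ g (Q.param x)

/-! ### `p-CLIQUE` and `W[1]` -/

/-- Graphs: a list of vertices and a list of pairs. Two different vertices `u`, `v` of the first list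
are adjacent if `(u, v)` or `(v, u)` is in the second list. -/
abbrev Graph : Type := List ℕ × List (ℕ × ℕ)

/-- `k` pairwise adjacent vertices -/
def HasClique (G : Graph) (k : ℕ) : Prop :=
  ∃ S : Finset ℕ, S.card = k ∧ (∀ v ∈ S, v ∈ G.1) ∧
    ∀ u ∈ S, ∀ v ∈ S, u ≠ v → (u, v) ∈ G.2 ∨ (v, u) ∈ G.2

/-- `p-CLIQUE`: has the graph a clique with `k` vertices? The parameter is `k`. -/
noncomputable def pClique : PProb :=
  PProb.ofCodes (fun x : Graph × ℕ => HasClique x.1 x.2) fun x => x.2

/-- The class `W[1]`. -/
def InW1 (Q : PProb) : Prop := FptReduces Q pClique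

/-! ### `p-log-SAT` and `M[1]` -/

/-- Formulas in conjunctive normal form: lists of clauses, a clause is a list of literals, the
literal `(i, b)` says that the variable `i` has the value `b`. -/
abbrev CNF : Type := List (List (ℕ × Bool))

/-- satisfiability -/
def Sat (φ : CNF) : Prop := ∃ f : ℕ → Bool, ∀ C ∈ φ, ∃ l ∈ C, f l.1 = l.2

/-- all clauses have at most `d` literals: the formulas in `Γ_{1,d}` -/
def Width (d : ℕ) (φ : CNF) : Prop := ∀ C ∈ φ, C.length ≤ d

/-- the number of the variables which occur in `φ` -/
def numVars (φ : CNF) : ℕ := (φ.flatten.map Prod.fst).toFinset.card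

/-- the size of `φ`: the number of the clauses plus the number of the occurrences of literals -/
def size (φ : CNF) : ℕ := (φ.map fun C => C.length + 1).sum

/-- the parameter `⌈n / log₂ m⌉`, where `n` is the number of the variables and `m` the size -/
noncomputable def logParam (φ : CNF) : ℕ := ⌈(numVars φ : ℝ) / Real.logb 2 (size φ)⌉₊

/-- `p-log-SAT(Γ_{1,d})` -/
noncomputable def pLogSat (d : ℕ) : PProb :=
  PProb.ofCodes (fun φ : CNF => Width d φ ∧ Sat φ) logParam

/-- The class `M[1]`. -/
def InM1 (Q : PProb) : Prop := ∃ d, 1 ≤ d ∧ FptReduces Q (pLogSat d)

/-! ### Compression -/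

/-- `k`-CLIQUE can be compressed to `h k * L ^ (1 - δ)` bits, `L` the length of the instance: in
polynomial time after a precomputation on `k`, an instance is transformed into a string of this
length, with the same answer, for the question whether the string is in a fixed set `A`. The
functions `π`, `h` and the set `A` are arbitrary. -/
def Compression (δ : ℝ) : Prop :=
  ∃ (A : Set (List Bool)) (π : ℕ → List Bool) (h : ℕ → ℕ) (F : List Bool → List Bool), PolyTime F ∧
    ∀ (G : Graph) (k : ℕ),
      (HasClique G k ↔ F (pairBits (π k) (bits (G, k))) ∈ A) ∧
        ((F (pairBits (π k) (bits (G, k)))).length : ℝ) ≤ h k * ((bits (G, k)).length : ℝ) ^ (1 - δ)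

/-! ### Nondeterminism with advice -/

/-- The complement of `Q` is decided nondeterministically in fpt-time with advice: some polynomial
time algorithm `V` verifies, with an advice string `a` which depends only on the parameter `k` and
on the length `n`, that `x` is a no-instance by means of a certificate `w`. The lengths of `a` and
`w` are at most `h k * (n + 1) ^ c`. -/
def CoNFptAdvice (Q : PProb) : Prop :=
  ∃ (V : List Bool → List Bool) (h : ℕ → ℕ) (c : ℕ), PolyTime V ∧
    ∀ k n : ℕ, ∃ a : List Bool, a.length ≤ h k * (n + 1) ^ c ∧
      ∀ x : List Bool, x.length = n → Q.param x = k →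
        (x ∉ Q.yes ↔ ∃ w : List Bool, w.length ≤ h k * (n + 1) ^ c ∧
          V (pairBits (pairBits x a) w) = [true])

/-- The nonuniform nondeterministic exponential time hypothesis fails: for every `r` there are a
polynomial time algorithm `V` and a number `c` such that for all `s ≥ 1` the algorithm `V` verifies
that a formula with `N` variables `0, …, N - 1` and with at most `r` literals in every clause is
unsatisfiable, by means of an advice string which depends only on `s` and `N`, and of a certificate,
both of length at most `C * 2 ^ (c * (N / s))`, where `C` depends only on `r` and `s`. -/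
def NETHFails : Prop :=
  ∀ r : ℕ, ∃ (V : List Bool → List Bool) (c : ℕ), PolyTime V ∧
    ∀ s : ℕ, 1 ≤ s → ∃ C : ℕ, ∀ N : ℕ, ∃ a : List Bool, a.length ≤ C * 2 ^ (c * (N / s)) ∧
      ∀ φ : CNF, Width r φ → (∀ D ∈ φ, ∀ l ∈ D, l.1 < N) →
        (¬ Sat φ ↔ ∃ w : List Bool, w.length ≤ C * 2 ^ (c * (N / s)) ∧
          V (pairBits (pairBits (bits φ) a) w) = [true])

end Pool.Agent.Q229.MW
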