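import Pool.Agent.Q229.MW.W1

/-!
# Nondeterministic refutations of formulas
-/

set_option autoImplicit false

namespace Pool.Agent.Q229.MW

open Pool.Agent.NPC Pool.Agent.CK

/-- the nodes and the pairs of N1, the number of vertices of the clique, the advice -/
abbrev NAdv (β : Type) : Type := (List (ℕ × List (ℕ × Bool)) × List (ℕ × ℕ)) × (ℕ × β)

/-- the test for unsatisfiability -/
def nTest {β γ : Type} (V : ((Graph × ℕ) × β) × γ → Bool) (z : (List Bool × NAdv β) × γ) : Bool :=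
  (unbits CNF z.1.1).elim false (fun φ =>
    V ((((okLabels φ z.1.2.1.1, z.1.2.1.2), z.1.2.2.1), z.1.2.2.2), z.2))

theorem poly_nTest {β γ : Type} [TEnc β] [TEnc γ] {V : ((Graph × ℕ) × β) × γ → Bool}
    (hV : Poly V) : Poly (nTest V) := by
  refine Poly.optElim (h := fun (z : (List Bool × NAdv β) × γ) φ =>
    V ((((okLabels φ z.1.2.1.1, z.1.2.1.2), z.1.2.2.1), z.1.2.2.2), z.2))
    (poly_unbits.comp (Poly.fst (Poly.fst Poly.id))) (NPC.Poly.const _) ?_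
  have hz : Poly (fun p : ((List Bool × NAdv β) × γ) × CNF => p.1) := Poly.fst Poly.id
  have hL : Poly (fun p : ((List Bool × NAdv β) × γ) × CNF => p.1.1.2.1.1) :=
    Poly.fst (Poly.fst (Poly.snd (Poly.fst hz)))
  have hE : Poly (fun p : ((List Bool × NAdv β) × γ) × CNF => p.1.1.2.1.2) :=
    Poly.snd (Poly.fst (Poly.snd (Poly.fst hz)))
  have hk : Poly (fun p : ((List Bool × NAdv β) × γ) × CNF => p.1.1.2.2.1) :=
    Poly.fst (Poly.snd (Poly.snd (Poly.fst hz)))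
  have hb : Poly (fun p : ((List Bool × NAdv β) × γ) × CNF => p.1.1.2.2.2) :=
    Poly.snd (Poly.snd (Poly.snd (Poly.fst hz)))
  have hok : Poly (fun p : ((List Bool × NAdv β) × γ) × CNF => okLabels p.2 p.1.1.2.1.1) :=
    N3.comp (Poly.pair (Poly.snd Poly.id) hL)
  exact hV.comp (Poly.pair (Poly.pair (Poly.pair (Poly.pair hok hE) hk) hb) (Poly.snd hz))

theorem neth_fails (h : CliqueAdv) : NETHFails := by
  intro r
  obtain ⟨β, γ, _, _, _, _, V1, h1, c1, hV1, hadv⟩ := h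
  obtain ⟨c2, hN⟩ := N2 r
  obtain ⟨V, hV, hV'⟩ := raw3 (nTest V1) (poly_nTest hV1)
  choose adv hadv1 hadv2 using hadv
  refine ⟨V, c2 * c1 + c2, hV, fun s hs => ?_⟩
  obtain ⟨C2, hC2⟩ := hN s hs
  set k : ℕ := s ^ r with hk
  refine ⟨C2 + sz k + 2 + h1 k * (C2 + sz k + 2) ^ c1, fun N => ?_⟩
  obtain ⟨L, E, hLE, hok, hiff⟩ := hC2 N
  set Q : ℕ := 2 ^ (c2 * (N / s)) with hQ
  have hQ1 : 1 ≤ Q := Nat.one_le_two_pow
  have hQc : 2 ^ ((c2 * c1 + c2) * (N / s)) = Q ^ c1 * Q := by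
    rw [hQ, ← pow_mul, ← pow_add]
    congr 1
    ring
  rw [hQc]
  have hQc1 : 1 ≤ Q ^ c1 := Nat.one_le_pow _ _ hQ1
  set ℓ : ℕ := C2 * Q + sz k + 1 with hℓ
  have hℓ1 : (ℓ + 1) ^ c1 ≤ (C2 + sz k + 2) ^ c1 * Q ^ c1 := by
    rw [← mul_pow]
    refine Nat.pow_le_pow_left ?_ _
    rw [hℓ]
    nlinarith
  have hadvL : h1 k * (ℓ + 1) ^ c1 ≤ h1 k * (C2 + sz k + 2) ^ c1 * Q ^ c1 := by
    rw [mul_assoc]
    exact Nat.mul_le_mul_left _ hℓ1
  have hfin : C2 * Q + sz k + 2 + h1 k * (ℓ + 1) ^ c1 ≤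
      (C2 + sz k + 2 + h1 k * (C2 + sz k + 2) ^ c1) * (Q ^ c1 * Q) := by
    have e1 : C2 * Q + sz k + 2 ≤ (C2 + sz k + 2) * (Q ^ c1 * Q) := by
      have : Q ≤ Q ^ c1 * Q := Nat.le_mul_of_pos_left _ hQc1
      nlinarith
    have e2 : h1 k * (C2 + sz k + 2) ^ c1 * Q ^ c1 ≤
        h1 k * (C2 + sz k + 2) ^ c1 * (Q ^ c1 * Q) :=
      Nat.mul_le_mul_left _ (Nat.le_mul_of_pos_right _ hQ1)
    rw [add_mul]
    omega
  have hGsz : ∀ φ : CNF, sz (((okLabels φ L, E) : Graph), k) ≤ ℓ := by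
    intro φ
    have e1 := hok φ
    rw [sz_pair] at hLE
    rw [sz_pair, sz_pair]
    omega
  refine ⟨bits (((L, E), (k, adv k ℓ)) : NAdv β), ?_, fun φ hw hv => ?_⟩
  · rw [bits_length, sz_pair, sz_pair k]
    have e1 := hadv1 k ℓ
    omega
  · rw [← hiff φ hw hv]
    constructor
    · intro hno
      obtain ⟨w, hw1, hw2⟩ := (hadv2 k ℓ _ (hGsz φ)).1 hno
      refine ⟨bits w, ?_, ?_⟩
      · rw [bits_length]
        omega
      · rw [hV']
        refine ⟨_, _, unbits_bits _, unbits_bits _, ?_⟩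
        unfold nTest
        simp only
        rw [unbits_bits]
        exact hw2
    · rintro ⟨w, -, hw'⟩
      rw [hV'] at hw'
      obtain ⟨b, c, hb, hc, hw'⟩ := hw'
      rw [unbits_bits, Option.some.injEq] at hb
      subst hb
      unfold nTest at hw'
      simp only at hw'
      rw [unbits_bits] at hw'
      exact (hadv2 k ℓ _ (hGsz φ)).2 c hw'

end Pool.Agent.Q229.MW
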