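import Pool.Agent.Q229.MW.M6
import Pool.Agent.Q229.MW.NE

/-!
# The final theorem
-/

set_option autoImplicit false

namespace Pool.Agent.Q229.MW

open Pool.Agent.NPC Pool.Agent.CK

theorem param_pClique (x : List Bool) :
    pClique.param x = (unbits (Graph × ℕ) x).elim 0 (fun y => y.2) := by
  cases h : unbits (Graph × ℕ) x with
  | none =>
    unfold pClique PProb.ofCodes
    have h1 : ¬ ∃ a : Graph × ℕ, bits a = x := by
      rintro ⟨a, rfl⟩
      rw [unbits_bits] at h
      cases h
    simp only [h1, dif_neg, not_false_eq_true, Option.elim_none]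
  | some y =>
    rw [← bits_of_unbits h]
    exact param_ofCodes _ _ _

theorem polyParam_pClique : pClique.PolyParam := by
  unfold PProb.PolyParam
  have h1 : Poly (fun x : List Bool => (unbits (Graph × ℕ) x).elim 0 (fun y => y.2)) :=
    Poly.optElim (h := fun (_ : List Bool) (y : Graph × ℕ) => y.2) (poly_unbits.comp Poly.id)
      (NPC.Poly.const _) (Poly.snd (Poly.snd Poly.id))
  have h2 := polyTime_bits h1
  have h3 : (fun x => bits (pClique.param x)) =
      fun x => bits ((unbits (Graph × ℕ) x).elim 0 (fun y => y.2)) :=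
    funext fun x => by rw [param_pClique]
  rw [h3]
  exact h2

/-- fpt-reductions are reflexive -/
theorem fptReduces_refl (Q : PProb) : FptReduces Q Q := by
  have h1 : PolyTime (fun z : List Bool => (unpair z).2) := by
    have := H642R2.TMSim.polyTime_toPC polyTime_id
    exact PC.toPolyTime (PC.comp (g := fun x => x) (f := fun z : List Bool => (unpair z).2)
      PC.rawOut609 (PC.comp (g := fun z : List Bool => (unpair z).2) (f := fun z => z)
        (Poly.snd poly_unpair) PC.rawIn))
  refine ⟨fun _ => [], fun k => k, fun z => (unpair z).2, Computable.const _, Computable.id, h1,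
    fun x => ?_⟩
  have h2 : (fun z : List Bool => (unpair z).2)
      (pairBits ((fun _ : ℕ => ([] : List Bool)) (Q.param x)) x) = x := by
    change (unpair (pairBits [] x)).2 = x
    rw [unpair_pairBits]
  rw [h2]
  exact ⟨Iff.rfl, le_rfl⟩

theorem main :
    (∀ δ : ℝ, 0 < δ → Compression δ →
      (∀ Q : PProb, InW1 Q → CoNFptAdvice Q) ∧ NETHFails) ∧
    ((∀ Q : PProb, Q.PolyParam → InW1 Q → InM1 Q) →
      (∀ Q : PProb, InW1 Q → CoNFptAdvice Q) ∧ NETHFails) := by
  have h1 : ∀ δ : ℝ, 0 < δ → Compression δ →
      (∀ Q : PProb, InW1 Q → CoNFptAdvice Q) ∧ NETHFails := by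
    intro δ hδ h
    have hc := clique_advice δ hδ h
    exact ⟨fun Q hQ => w1_advice hc Q hQ, neth_fails hc⟩
  refine ⟨h1, fun h => ?_⟩
  obtain ⟨d, -, hd⟩ := h pClique polyParam_pClique (fptReduces_refl pClique)
  exact h1 (1 / 2) (by norm_num) (m1_compression d hd)

end Pool.Agent.Q229.MW
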