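import Pool.Agent.Q229.MW.Base

/-!
# Project MW, lemma M4
-/

set_option autoImplicit false

namespace Pool.Agent.Q229.MWL

open Pool.Agent.NPC Pool.Agent.Q229.MW

theorem length_le_sz_mw {α : Type} [TEnc α] (l : List α) : l.length + 1 ≤ sz l := by
  have := length_lt_sz l
  omega

theorem size_le_sz_mw : ∀ φ : CNF, size φ + 1 ≤ sz φ
  | [] => by simp [size]
  | C :: φ => by
    have h1 := size_le_sz_mw φ
    have h2 := length_le_sz_mw C
    simp only [size, List.map_cons, List.sum_cons, sz_list_cons] at h1 ⊢
    omega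

theorem numVars_eq_zero {φ : CNF} (h : size φ ≤ 1) : numVars φ = 0 := by
  rcases φ with _ | ⟨C, _ | ⟨D, φ⟩⟩
  · rfl
  · have h1 : C.length = 0 := by
      simp only [size, List.map_cons, List.map_nil, List.sum_cons, List.sum_nil] at h
      omega
    have h2 : C = [] := List.eq_nil_of_length_eq_zero h1
    subst h2
    rfl
  · simp only [size, List.map_cons, List.sum_cons] at h
    omega

theorem M4 (φ : CNF) : (numVars φ : ℝ) ≤ logParam φ * Real.logb 2 (size φ) ∧
    0 < sz φ ∧ size φ ≤ sz φ := by
  refine ⟨?_, sz_pos φ, by have := size_le_sz_mw φ; omega⟩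
  by_cases h : size φ ≤ 1
  · rw [numVars_eq_zero h]
    have h1 : Real.logb 2 (size φ) = 0 := by
      interval_cases hs : size φ
      · simp
      · simp
    rw [h1]
    simp
  · push Not at h
    have h2 : 0 < Real.logb 2 (size φ) := by
      apply Real.logb_pos (by norm_num)
      exact_mod_cast h
    have h3 : (numVars φ : ℝ) / Real.logb 2 (size φ) ≤ logParam φ := Nat.le_ceil _
    rwa [div_le_iff₀ h2] at h3

end Pool.Agent.Q229.MWL
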