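import Pool.Agent.Q229.MW.Base

/-!
# Project MW, lemma U2: the length of the code of a disjoint union
-/

set_option autoImplicit false

namespace Pool.Agent.Q229.MWL

open Pool.Agent.NPC Pool.Agent.Q229.MW

theorem size_le_sz_nat (v : ℕ) : 2 * v.size + 1 ≤ sz v := by
  have h := sz_listBool_ge v.bits
  have h2 : v.bits.length = v.size := by
    rw [Nat.size_eq_bits_len]
  rw [h2] at h
  exact h

theorem sz_num (t i v : ℕ) (hi : i < t) : sz (v * t + i) ≤ (4 * t.size + 2) * sz v := by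
  have h1 : v < 2 ^ v.size := Nat.lt_size_self v
  have h2 : t < 2 ^ t.size := Nat.lt_size_self t
  have h3 : (v * t + i).size ≤ v.size + t.size := by
    rw [Nat.size_le, pow_add]
    calc v * t + i < (v + 1) * t := by rw [Nat.add_mul]; omega
      _ ≤ 2 ^ v.size * 2 ^ t.size := Nat.mul_le_mul h1 h2.le
  have h4 := sz_nat_le (v * t + i)
  have h5 := size_le_sz_nat v
  have h6 : 1 ≤ sz v := sz_pos v
  calc sz (v * t + i) ≤ 4 * (v.size + t.size) + 1 := by omega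
    _ ≤ 2 * sz v + 4 * t.size * 1 := by omega
    _ ≤ 2 * sz v + 4 * t.size * sz v := by gcongr
    _ = (4 * t.size + 2) * sz v := by ring

theorem sz_map_le {α β : Type} [TEnc α] [TEnc β] (K : ℕ) (hK : 1 ≤ K) (f : α → β)
    (hf : ∀ a, sz (f a) ≤ K * sz a) : ∀ l : List α, sz (l.map f) ≤ K * sz l
  | [] => by simp [hK]
  | a :: l => by
    have h1 := sz_map_le K hK f hf l
    have h2 := hf a
    simp only [List.map_cons, sz_list_cons]
    calc sz (f a) + sz (l.map f) + 1 ≤ K * sz a + K * sz l + K := by omega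
      _ = K * (sz a + sz l + 1) := by ring

theorem sz_flatMap_le {α β : Type} [TEnc β] (B : ℕ) (F : α → List β) :
    ∀ l : List α, (∀ a ∈ l, sz (F a) ≤ B) → sz (l.flatMap F) ≤ l.length * B + 1
  | [], _ => by simp
  | a :: l, h => by
    have h1 := sz_flatMap_le B F l fun b hb => h b (List.mem_cons_of_mem _ hb)
    have h2 := h a List.mem_cons_self
    have h3 := sz_append (F a) (l.flatMap F)
    rw [List.flatMap_cons, List.length_cons, Nat.add_mul]
    omega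

theorem sz_shift (t i : ℕ) (hi : i < t) (G : Graph) :
    sz (shift t i G).1 ≤ (4 * t.size + 2) * sz G.1 ∧
      sz (shift t i G).2 ≤ (4 * t.size + 2) * sz G.2 := by
  refine ⟨sz_map_le _ (by omega) _ (fun v => sz_num t i v hi) G.1,
    sz_map_le _ (by omega) _ (fun e => ?_) G.2⟩
  have h1 := sz_num t i e.1 hi
  have h2 := sz_num t i e.2 hi
  have h3 : sz e = sz e.1 + sz e.2 + 1 := sz_pair e.1 e.2
  rw [h3, sz_pair]
  calc sz (e.1 * t + i) + sz (e.2 * t + i) + 1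
      ≤ (4 * t.size + 2) * sz e.1 + (4 * t.size + 2) * sz e.2 + (4 * t.size + 2) := by omega
    _ = (4 * t.size + 2) * (sz e.1 + sz e.2 + 1) := by ring

theorem U2 : ∃ C : ℕ, 1 ≤ C ∧ ∀ (Gs : List Graph) (k ℓ : ℕ), Gs ≠ [] →
    (∀ G ∈ Gs, sz (G, k) ≤ ℓ) →
    sz (dunion Gs, k) ≤ C * (Gs.length + 1) * (ℓ + 1) * (Gs.length.size + 1) := by
  refine ⟨14, by norm_num, fun Gs k ℓ hne h => ?_⟩
  set t := Gs.length with ht
  set s := t.size with hs
  have hG : ∀ G ∈ Gs, sz G.1 ≤ ℓ ∧ sz G.2 ≤ ℓ ∧ sz k ≤ ℓ := by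
    intro G hG
    have h1 := h G hG
    have h2 : sz (G, k) = sz G + sz k + 1 := sz_pair G k
    have h3 : sz G = sz G.1 + sz G.2 + 1 := sz_pair G.1 G.2
    omega
  have hk : sz k ≤ ℓ := by
    obtain ⟨G, hG'⟩ := List.exists_mem_of_ne_nil Gs hne
    exact (hG G hG').2.2
  have hp : ∀ p ∈ Gs.zipIdx, p.1 ∈ Gs ∧ p.2 < t := by
    intro p hp
    refine ⟨List.fst_mem_of_mem_zipIdx hp, ?_⟩
    have := List.snd_lt_of_mem_zipIdx hp
    omega
  have h1 : sz (Gs.zipIdx.flatMap fun p => (shift t p.2 p.1).1) ≤ t * ((4 * s + 2) * ℓ) + 1 := by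
    have := sz_flatMap_le ((4 * s + 2) * ℓ) (fun p : Graph × ℕ => (shift t p.2 p.1).1) Gs.zipIdx
      (fun p hpm => (sz_shift t p.2 (hp p hpm).2 p.1).1.trans
        (Nat.mul_le_mul_left _ (hG _ (hp p hpm).1).1))
    rwa [List.length_zipIdx] at this
  have h2 : sz (Gs.zipIdx.flatMap fun p => (shift t p.2 p.1).2) ≤ t * ((4 * s + 2) * ℓ) + 1 := by
    have := sz_flatMap_le ((4 * s + 2) * ℓ) (fun p : Graph × ℕ => (shift t p.2 p.1).2) Gs.zipIdx
      (fun p hpm => (sz_shift t p.2 (hp p hpm).2 p.1).2.trans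
        (Nat.mul_le_mul_left _ (hG _ (hp p hpm).1).2.1))
    rwa [List.length_zipIdx] at this
  have h3 : sz (dunion Gs, k) = sz (Gs.zipIdx.flatMap fun p => (shift t p.2 p.1).1) +
      sz (Gs.zipIdx.flatMap fun p => (shift t p.2 p.1).2) + 1 + sz k + 1 := by
    have h4 : sz (dunion Gs, k) = sz (dunion Gs) + sz k + 1 := sz_pair _ _
    have h5 : sz (dunion Gs) = sz (dunion Gs).1 + sz (dunion Gs).2 + 1 := sz_pair _ _
    rw [h4, h5]
    rfl
  rw [h3]
  have h6 : t * ((4 * s + 2) * ℓ) ≤ 4 * ((t + 1) * (ℓ + 1) * (s + 1)) := by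
    calc t * ((4 * s + 2) * ℓ) ≤ (t + 1) * ((4 * (s + 1)) * (ℓ + 1)) := by gcongr <;> omega
      _ = 4 * ((t + 1) * (ℓ + 1) * (s + 1)) := by ring
  have h7 : ℓ + 1 ≤ (t + 1) * (ℓ + 1) * (s + 1) := by
    calc ℓ + 1 = 1 * (ℓ + 1) * 1 := by ring
      _ ≤ (t + 1) * (ℓ + 1) * (s + 1) := by gcongr <;> omega
  calc _ ≤ 8 * ((t + 1) * (ℓ + 1) * (s + 1)) + (ℓ + 4) := by omega
    _ ≤ 14 * ((t + 1) * (ℓ + 1) * (s + 1)) := by omega
    _ = 14 * (t + 1) * (ℓ + 1) * (s + 1) := by ring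

end Pool.Agent.Q229.MWL
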