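import Pool.Agent.Q229.MW.Base

/-!
# Project MW, lemma U3: disjoint unions are computed in polynomial time
-/

set_option autoImplicit false

namespace Pool.Agent.Q229.MWL

open Pool.Agent.NPC Pool.Agent.Q229.MW

theorem poly_num : Poly (fun w : (List Graph × (Graph × ℕ)) × ℕ => w.2 * w.1.1.length + w.1.2.2) :=
  Poly.add (Poly.mul (Poly.snd Poly.id) (Poly.length (Poly.fst (Poly.fst Poly.id))))
    (Poly.snd (Poly.snd (Poly.fst Poly.id)))

theorem U3 : Poly dunion := by
  have h1 : Poly (fun Gs : List Graph =>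
      Gs.zipIdx.flatMap fun p => (shift Gs.length p.2 p.1).1) :=
    Poly.flatMap (l := fun Gs : List Graph => Gs.zipIdx)
      (F := fun (Gs : List Graph) (p : Graph × ℕ) => p.1.1.map fun v => v * Gs.length + p.2)
      (Poly.zipIdx Poly.id)
      (NPC.Poly.map (l := fun z : List Graph × (Graph × ℕ) => z.2.1.1)
        (F := fun (z : List Graph × (Graph × ℕ)) (v : ℕ) => v * z.1.length + z.2.2)
        (Poly.fst (Poly.fst (Poly.snd Poly.id))) poly_num)
  have h2 : Poly (fun Gs : List Graph =>
      Gs.zipIdx.flatMap fun p => (shift Gs.length p.2 p.1).2) :=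
    Poly.flatMap (l := fun Gs : List Graph => Gs.zipIdx)
      (F := fun (Gs : List Graph) (p : Graph × ℕ) =>
        p.1.2.map fun e => (e.1 * Gs.length + p.2, e.2 * Gs.length + p.2))
      (Poly.zipIdx Poly.id)
      (NPC.Poly.map (l := fun z : List Graph × (Graph × ℕ) => z.2.1.2)
        (F := fun (z : List Graph × (Graph × ℕ)) (e : ℕ × ℕ) =>
          (e.1 * z.1.length + z.2.2, e.2 * z.1.length + z.2.2))
        (Poly.snd (Poly.fst (Poly.snd Poly.id)))
        (Poly.pair
          (poly_num.comp (f := fun w : (List Graph × (Graph × ℕ)) × (ℕ × ℕ) => (w.1, w.2.1))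
            (Poly.pair (Poly.fst Poly.id) (Poly.fst (Poly.snd Poly.id))))
          (poly_num.comp (f := fun w : (List Graph × (Graph × ℕ)) × (ℕ × ℕ) => (w.1, w.2.2))
            (Poly.pair (Poly.fst Poly.id) (Poly.snd (Poly.snd Poly.id))))))
  exact Poly.pair h1 h2

end Pool.Agent.Q229.MWL
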