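import Pool.Agent.Q229.MW.Base
import Pool.Agent.Q229.MW.U2
import Pool.Agent.Q229.MW.U3
import Pool.Agent.Q229.MW.M4
import Pool.Agent.Q184.MW.M3
import Pool.Agent.Q184.MW.M5
import Pool.Agent.Q149.MW.N1
import Pool.Agent.Q149.MW.M2
import Pool.Agent.Q151.MW.N2
import Pool.Agent.Q151.MW.N3
import Pool.Agent.Q151.MW.M1
import Pool.Agent.Q208.MW.TH
import Pool.Agent.Q241.MW.U1

/-!
# Project MW: the lemmas, proved by several seats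
-/

set_option autoImplicit false

namespace Pool.Agent.Q229.MW

open Pool.Agent.NPC

theorem U1 (Gs : List Graph) (h : Gs ≠ []) (k : ℕ) :
    HasClique (dunion Gs) k ↔ ∃ G ∈ Gs, HasClique G k := Pool.Agent.Q241.MW.U1 Gs h k

theorem U2 : ∃ C : ℕ, 1 ≤ C ∧ ∀ (Gs : List Graph) (k ℓ : ℕ), Gs ≠ [] →
    (∀ G ∈ Gs, sz (G, k) ≤ ℓ) →
    sz (dunion Gs, k) ≤ C * (Gs.length + 1) * (ℓ + 1) * (Gs.length.size + 1) :=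
  Pool.Agent.Q229.MWL.U2

theorem U3 : Poly dunion := Pool.Agent.Q229.MWL.U3

theorem TH (δ : ℝ) (hδ : 0 < δ) (hδ' : δ ≤ 1 / 2) (C : ℕ) (hC : 1 ≤ C) :
    ∃ c : ℕ, ∀ h : ℕ, ∃ H : ℕ, ∀ ℓ : ℕ, ∃ t : ℕ, 1 ≤ t ∧ t ≤ H * (ℓ + 1) ^ c ∧
      (h : ℝ) * ((C * (t + 1) * (ℓ + 1) * (t.size + 1) : ℕ) : ℝ) ^ (1 - δ) + 2 ≤ t :=
  Pool.Agent.Q208.MW.TH δ hδ hδ' C hC

theorem N1 (r s N : ℕ) (hs : 1 ≤ s) : ∃ (L : List (ℕ × List (ℕ × Bool))) (E : List (ℕ × ℕ)),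
    L.length ≤ s ^ r * 2 ^ (r * (N / s + 1)) ∧ E.length ≤ L.length ^ 2 ∧
    (∀ p ∈ L, p.1 < L.length ∧ p.2.length ≤ N ∧ ∀ l ∈ p.2, l.1 < N) ∧
    (∀ e ∈ E, e.1 < L.length ∧ e.2 < L.length) ∧
    ∀ φ : CNF, Width r φ → (∀ D ∈ φ, ∀ l ∈ D, l.1 < N) →
      (HasClique (okLabels φ L, E) (s ^ r) ↔ Sat φ) :=
  Pool.Agent.Q149.MW.N1 r s N hs

theorem N2 (r : ℕ) : ∃ c : ℕ, ∀ s : ℕ, 1 ≤ s → ∃ C : ℕ, ∀ N : ℕ,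
    ∃ (L : List (ℕ × List (ℕ × Bool))) (E : List (ℕ × ℕ)),
      sz (L, E) ≤ C * 2 ^ (c * (N / s)) ∧ (∀ φ : CNF, sz (okLabels φ L) ≤ sz L) ∧
      ∀ φ : CNF, Width r φ → (∀ D ∈ φ, ∀ l ∈ D, l.1 < N) →
        (HasClique (okLabels φ L, E) (s ^ r) ↔ Sat φ) :=
  Pool.Agent.Q151.MW.N2_of N1 r

theorem N3 : Poly (fun p : CNF × List (ℕ × List (ℕ × Bool)) => okLabels p.1 p.2) :=
  Pool.Agent.Q151.MW.N3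

theorem M1 (φ : CNF) : Sat (canon φ) ↔ Sat φ := Pool.Agent.Q151.MW.M1 φ

theorem M2 : Poly canon := Pool.Agent.Q149.MW.M2

theorem M3 (d : ℕ) : ∃ q : Polynomial ℕ, ∀ φ : CNF, Width d φ → sz (canon φ) ≤ q.eval (numVars φ) :=
  Pool.Agent.Q184.MW.M3 d

theorem M4 (φ : CNF) : (numVars φ : ℝ) ≤ logParam φ * Real.logb 2 (size φ) ∧
    0 < sz φ ∧ size φ ≤ sz φ := Pool.Agent.Q229.MWL.M4 φ

theorem M5 (q : Polynomial ℕ) (g A e : ℕ) : ∃ H : ℕ, ∀ (L n : ℕ), 1 ≤ L →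
    (n : ℝ) ≤ g * Real.logb 2 ((A : ℝ) * (L : ℝ) ^ e) → ((q.eval n : ℕ) : ℝ) ≤ H * (L : ℝ) ^ (1 / 2 : ℝ) :=
  Pool.Agent.Q184.MW.M5 q g A e

end Pool.Agent.Q229.MW
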