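import Pool.Agent.Q229.MW.W1

/-!
# From `M[1]` to compression
-/

set_option autoImplicit false

namespace Pool.Agent.Q229.MW

open Pool.Agent.NPC Pool.Agent.CK

/-- are all clauses short? -/
def widthB (d : ℕ) (φ : CNF) : Bool := φ.all fun C => decide (C.length ≤ d)

theorem widthB_iff {d : ℕ} {φ : CNF} : widthB d φ = true ↔ Width d φ := by
  unfold widthB Width
  simp

/-- the compression -/
def compr (d : ℕ) (F : List Bool → List Bool) (x : List Bool) : CNF :=
  (unbits CNF (F x)).elim [[]] (fun φ => bif widthB d φ then canon φ else [[]])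

theorem poly_compr (d : ℕ) {F : List Bool → List Bool} (hF : PolyTime F) : Poly (compr d F) := by
  refine Poly.optElim (h := fun (_ : List Bool) φ => bif widthB d φ then canon φ else [[]])
    (poly_unbits.comp (poly_of_polyTime hF)) (NPC.Poly.const _) ?_
  refine Poly.cond ?_ (M2.comp (Poly.snd Poly.id)) (NPC.Poly.const _)
  refine Poly.all (p := fun (_ : List Bool × CNF) C => decide (C.length ≤ d)) (Poly.snd Poly.id) ?_
  exact Poly.decide_le (Poly.length (Poly.snd Poly.id)) (NPC.Poly.const _)

theorem not_sat_false : ¬ Sat [[]] := by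
  rintro ⟨f, hf⟩
  obtain ⟨l, hl, -⟩ := hf [] (by simp)
  simp at hl

theorem m1_compression (d : ℕ) (h : FptReduces pClique (pLogSat d)) : Compression (1 / 2) := by
  obtain ⟨π, g, F, -, -, hF, hred⟩ := h
  obtain ⟨C, e, hC⟩ := output_length hF
  obtain ⟨q, hq⟩ := M3 d
  have hM5 := fun k => M5 q (g k) (C * (2 * (π k).length + 3) ^ e) e
  choose H hH using hM5
  refine ⟨lang Sat, π, fun k => H k + sz ([[]] : CNF), fun x => bits (compr d F x),
    polyTime_bits (poly_compr d hF), fun G k => ?_⟩
  obtain ⟨hyes, hpar⟩ := hred (bits (G, k))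
  have hp1 : pClique.param (bits (G, k)) = k := param_ofCodes _ _ _
  have hy1 : bits (G, k) ∈ pClique.yes ↔ HasClique G k := mem_yes_ofCodes _ _ _
  rw [hp1, hy1] at hyes
  rw [hp1] at hpar
  set z := pairBits (π k) (bits (G, k)) with hz
  have hL1 : 1 ≤ (bits (G, k)).length := by
    rw [bits_length]
    exact sz_pos _
  have hyl : (F z).length ≤ C * (2 * (π k).length + 3) ^ e * (bits (G, k)).length ^ e := by
    refine (hC _).trans ?_
    rw [hz, length_pairBits, mul_assoc, ← mul_pow]
    refine Nat.mul_le_mul_left _ (Nat.pow_le_pow_left ?_ _)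
    nlinarith
  have hsqrt : (1 : ℝ) ≤ ((bits (G, k)).length : ℝ) ^ (1 / 2 : ℝ) :=
    Real.one_le_rpow (by exact_mod_cast hL1) (by norm_num)
  have hexp : (1 : ℝ) - 1 / 2 = 1 / 2 := by norm_num
  rw [hexp]
  have hsmall : ((sz ([[]] : CNF) : ℕ) : ℝ) ≤
      ((H k + sz ([[]] : CNF) : ℕ) : ℝ) * ((bits (G, k)).length : ℝ) ^ (1 / 2 : ℝ) := by
    rw [Nat.cast_add, add_mul]
    have h1 := le_mul_of_one_le_right (Nat.cast_nonneg (α := ℝ) (sz ([[]] : CNF))) hsqrt
    have h2 : (0 : ℝ) ≤ (H k : ℝ) * ((bits (G, k)).length : ℝ) ^ (1 / 2 : ℝ) := by positivity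
    linarith
  rw [bits_mem_lang, bits_length]
  unfold compr
  cases hu : unbits CNF (F z) with
  | none =>
    simp only [Option.elim_none]
    refine ⟨?_, hsmall⟩
    rw [hyes]
    constructor
    · rintro ⟨a, ha, -⟩
      rw [← ha, unbits_bits] at hu
      cases hu
    · intro hs
      exact absurd hs not_sat_false
  | some φ =>
    have hφ : bits φ = F z := bits_of_unbits hu
    simp only [Option.elim_some]
    have hyes' : HasClique G k ↔ (Width d φ ∧ Sat φ) := by
      rw [hyes, ← hφ]
      exact mem_yes_ofCodes _ _ _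
    cases hw : widthB d φ with
    | false =>
      simp only [cond_false]
      refine ⟨?_, hsmall⟩
      rw [hyes']
      constructor
      · rintro ⟨h1, -⟩
        rw [← widthB_iff, hw] at h1
        cases h1
      · intro hs
        exact absurd hs not_sat_false
    | true =>
      simp only [cond_true]
      have hwd : Width d φ := widthB_iff.1 hw
      refine ⟨?_, ?_⟩
      · rw [hyes', M1]
        exact ⟨fun h => h.2, fun h => ⟨hwd, h⟩⟩
      · have h1 := hq φ hwd
        obtain ⟨h2, h3, h4⟩ := M4 φ
        have h5 : logParam φ ≤ g k := by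
          have := hpar
          rw [← hφ] at this
          unfold pLogSat at this
          rwa [param_ofCodes] at this
        have h6 : size φ ≤ C * (2 * (π k).length + 3) ^ e * (bits (G, k)).length ^ e := by
          refine h4.trans ?_
          rw [← bits_length, hφ]
          exact hyl
        have h7 : (numVars φ : ℝ) ≤ (g k : ℝ) * Real.logb 2
            (((C * (2 * (π k).length + 3) ^ e : ℕ) : ℝ) * ((bits (G, k)).length : ℝ) ^ e) := by
          by_cases hs0 : size φ = 0
          · rw [hs0] at h2
            have h8 : (numVars φ : ℝ) ≤ 0 := by simpa using h2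
            have h9 : (1 : ℝ) ≤ ((C * (2 * (π k).length + 3) ^ e : ℕ) : ℝ) *
                ((bits (G, k)).length : ℝ) ^ e := by
              have h10 : 1 ≤ C * (2 * (π k).length + 3) ^ e * (bits (G, k)).length ^ e := by
                refine le_trans ?_ hyl
                rw [← hφ, bits_length]
                exact h3
              exact_mod_cast h10
            refine h8.trans (mul_nonneg (Nat.cast_nonneg _) (Real.logb_nonneg (by norm_num) h9))
          · have hspos : (0 : ℝ) < (size φ : ℝ) := by
              exact_mod_cast Nat.pos_of_ne_zero hs0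
            have h8 : Real.logb 2 (size φ) ≤ Real.logb 2
                (((C * (2 * (π k).length + 3) ^ e : ℕ) : ℝ) * ((bits (G, k)).length : ℝ) ^ e) :=
              Real.logb_le_logb_of_le (by norm_num) hspos (by exact_mod_cast h6)
            have h9 : (0 : ℝ) ≤ Real.logb 2 (size φ) :=
              Real.logb_nonneg (by norm_num) (by exact_mod_cast Nat.pos_of_ne_zero hs0)
            refine h2.trans ?_
            exact mul_le_mul (by exact_mod_cast h5) h8 h9 (Nat.cast_nonneg _)
        have h8 := hH k (bits (G, k)).length (numVars φ) hL1 h7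
        have h9 : ((sz (canon φ) : ℕ) : ℝ) ≤ (q.eval (numVars φ) : ℕ) := by exact_mod_cast h1
        refine h9.trans (h8.trans ?_)
        rw [Nat.cast_add, add_mul]
        have h10 : (0 : ℝ) ≤ ((sz ([[]] : CNF) : ℕ) : ℝ) *
          ((bits (G, k)).length : ℝ) ^ (1 / 2 : ℝ) := by positivity
        linarith

end Pool.Agent.Q229.MW
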