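import Pool.Agent.Q229.MW.CA

/-!
# From `p-CLIQUE` to all problems in `W[1]`
-/

set_option autoImplicit false

namespace Pool.Agent.Q229.MW

open Pool.Agent.NPC Pool.Agent.CK

/-- tests on typed advice and certificates -/
theorem raw3 {β γ : Type} [TEnc β] [TDec β] [TEnc γ] [TDec γ] (R : (List Bool × β) × γ → Bool)
    (hR : Poly R) : ∃ V : List Bool → List Bool, PolyTime V ∧ ∀ x b' c' : List Bool,
      V (pairBits (pairBits x b') c') = [true] ↔
        ∃ b c, unbits β b' = some b ∧ unbits γ c' = some c ∧ R ((x, b), c) = true := by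
  have hx : Poly (fun z : List Bool => (unpair (unpair z).1).1) :=
    Poly.fst (poly_unpair.comp (Poly.fst (poly_unpair.comp Poly.id)))
  have h2 : Poly (fun p : List Bool × β => (unbits γ (unpair p.1).2).elim false
      (fun c => R (((unpair (unpair p.1).1).1, p.2), c))) := by
    refine Poly.optElim (h := fun (p : List Bool × β) c => R (((unpair (unpair p.1).1).1, p.2), c))
      (poly_unbits.comp (Poly.snd (poly_unpair.comp (Poly.fst Poly.id)))) (NPC.Poly.const _) ?_
    exact hR.comp (Poly.pair (Poly.pair (hx.comp (Poly.fst (Poly.fst Poly.id)))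
      (Poly.snd (Poly.fst Poly.id))) (Poly.snd Poly.id))
  have h1 : Poly (fun z : List Bool => (unbits β (unpair (unpair z).1).2).elim false
      (fun b => (unbits γ (unpair z).2).elim false
        (fun c => R (((unpair (unpair z).1).1, b), c)))) :=
    Poly.optElim (h := fun (z : List Bool) (b : β) => (unbits γ (unpair z).2).elim false
        (fun c => R (((unpair (unpair z).1).1, b), c)))
      (poly_unbits.comp (Poly.snd (poly_unpair.comp (Poly.fst (poly_unpair.comp Poly.id)))))
      (NPC.Poly.const _) h2
  refine ⟨_, polyTime_of_poly h1, fun x b' c' => ?_⟩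
  simp only [unpair_pairBits, List.cons.injEq, and_true]
  cases unbits β b' with
  | none => simp
  | some b =>
    cases unbits γ c' with
    | none => simp
    | some c => simp

theorem length_pairBits (x w : List Bool) : (pairBits x w).length = 2 * x.length + w.length + 1 := by
  unfold pairBits
  rw [List.length_append, List.length_cons, List.length_flatMap]
  simp
  omega

/-- the outputs of polynomial time functions have polynomial length -/
theorem output_length {F : List Bool → List Bool} (hF : PolyTime F) :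
    ∃ C c : ℕ, ∀ x, (F x).length ≤ C * (x.length + 1) ^ c := by
  obtain ⟨r, hr⟩ := (poly_of_polyTime hF).sz_le
  obtain ⟨C, c, -, -, h⟩ := K2_bound r
  refine ⟨C * 4 ^ c * 2 ^ c, c, fun x => ?_⟩
  have h1 := hr x
  have h2 := sz_listBool_ge (F x)
  have h3 := sz_listBool_le x
  have h4 := eval_mono r h3
  have h5 := h (4 * x.length + 1)
  have h6 : (4 * x.length + 1 + 1) ^ c ≤ (4 * (x.length + 1)) ^ c :=
    Nat.pow_le_pow_left (by omega) c
  rw [mul_pow] at h6
  have h7 : C * (4 * x.length + 1 + 1) ^ c ≤ C * (4 ^ c * (x.length + 1) ^ c) :=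
    Nat.mul_le_mul_left _ h6
  have h8 : 1 ≤ 2 ^ c := Nat.one_le_two_pow
  calc (F x).length ≤ C * (4 ^ c * (x.length + 1) ^ c) := by omega
    _ = C * 4 ^ c * 1 * (x.length + 1) ^ c := by ring
    _ ≤ C * 4 ^ c * 2 ^ c * (x.length + 1) ^ c := by gcongr

theorem param_ofCodes {α : Type} [TEnc α] (P : α → Prop) (κ : α → ℕ) (a : α) :
    (PProb.ofCodes P κ).param (bits a) = κ a := by
  unfold PProb.ofCodes
  have h : ∃ b : α, bits b = bits a := ⟨a, rfl⟩
  simp only [h, dif_pos]
  rw [bits_injective h.choose_spec]

theorem mem_yes_ofCodes {α : Type} [TEnc α] (P : α → Prop) (κ : α → ℕ) (a : α) :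
    bits a ∈ (PProb.ofCodes P κ).yes ↔ P a := bits_mem_lang

/-- the test for a problem in `W[1]` -/
def w1Test {β γ : Type} (F : List Bool → List Bool) (V : ((Graph × ℕ) × β) × γ → Bool)
    (z : (List Bool × (List Bool × List β)) × Option γ) : Bool :=
  z.2.elim (!(unbits (Graph × ℕ) (F (pairBits z.1.2.1 z.1.1))).isSome)
    (fun w => (unbits (Graph × ℕ) (F (pairBits z.1.2.1 z.1.1))).elim false
      (fun y => (z.1.2.2[y.2]?).elim false (fun b => V ((y, b), w))))

theorem poly_w1Test {β γ : Type} [TEnc β] [TEnc γ] {F : List Bool → List Bool} (hF : PolyTime F)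
    {V : ((Graph × ℕ) × β) × γ → Bool} (hV : Poly V) : Poly (w1Test F V) := by
  have hF' := poly_of_polyTime hF
  have hy : Poly (fun z : (List Bool × (List Bool × List β)) × Option γ =>
      unbits (Graph × ℕ) (F (pairBits z.1.2.1 z.1.1))) :=
    poly_unbits.comp (hF'.comp (poly_pairBits.comp
      (Poly.pair (Poly.fst (Poly.snd (Poly.fst Poly.id))) (Poly.fst (Poly.fst Poly.id)))))
  have h3 : Poly (fun p : (((List Bool × (List Bool × List β)) × Option γ) × γ) × (Graph × ℕ) =>
      ((p.1.1.1.2.2)[p.2.2]?).elim false (fun b => V ((p.2, b), p.1.2))) := by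
    refine Poly.optElim (h := fun (p : (((List Bool × (List Bool × List β)) × Option γ) × γ) ×
      (Graph × ℕ)) b => V ((p.2, b), p.1.2)) ?_ (NPC.Poly.const _) ?_
    · exact Poly.getElem? (Poly.snd (Poly.snd (Poly.fst (Poly.fst (Poly.fst Poly.id)))))
        (Poly.snd (Poly.snd Poly.id))
    · exact hV.comp (Poly.pair (Poly.pair (Poly.snd (Poly.fst Poly.id)) (Poly.snd Poly.id))
        (Poly.snd (Poly.fst (Poly.fst Poly.id))))
  have h2 : Poly (fun p : ((List Bool × (List Bool × List β)) × Option γ) × γ =>
      (unbits (Graph × ℕ) (F (pairBits p.1.1.2.1 p.1.1.1))).elim false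
        (fun y => ((p.1.1.2.2)[y.2]?).elim false (fun b => V ((y, b), p.2)))) :=
    Poly.optElim (h := fun (p : ((List Bool × (List Bool × List β)) × Option γ) × γ) y =>
      ((p.1.1.2.2)[y.2]?).elim false (fun b => V ((y, b), p.2)))
      (hy.comp (Poly.fst Poly.id)) (NPC.Poly.const _) h3
  exact Poly.optElim (h := fun (z : (List Bool × (List Bool × List β)) × Option γ) w =>
    (unbits (Graph × ℕ) (F (pairBits z.1.2.1 z.1.1))).elim false
      (fun y => (z.1.2.2[y.2]?).elim false (fun b => V ((y, b), w)))) (Poly.snd Poly.id)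
    (Poly.not (Poly.isSome hy)) h2

theorem w1_advice (h : CliqueAdv) (Q : PProb) (hQ : InW1 Q) : CoNFptAdvice Q := by
  obtain ⟨β, γ, _, _, _, _, V1, h1, c1, hV1, hadv⟩ := h
  obtain ⟨π, g, F, -, -, hF, hred⟩ := hQ
  obtain ⟨C, e, hC⟩ := output_length hF
  obtain ⟨V, hV, hV'⟩ := raw3 (w1Test F V1) (poly_w1Test hF hV1)
  choose adv hadv1 hadv2 using hadv
  let A : ℕ → ℕ := fun k => C * (2 * (π k).length + 2) ^ e
  let M : ℕ → ℕ := fun k => (∑ i ∈ Finset.range (g k + 1), h1 i) * (A k + 1) ^ c1
  refine ⟨V, fun k => 4 * (π k).length + 5 + (g k + 1) * (M k + 1) + M k, e * c1, hV,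
    fun k n => ?_⟩
  have hn1 : 1 ≤ (n + 1) ^ (e * c1) := Nat.one_le_pow _ _ (by omega)
  set ℓ : ℕ := A k * (n + 1) ^ e with hℓ
  have hℓ1 : (ℓ + 1) ^ c1 ≤ (A k + 1) ^ c1 * (n + 1) ^ (e * c1) := by
    rw [pow_mul, ← mul_pow]
    refine Nat.pow_le_pow_left ?_ _
    have : 1 ≤ (n + 1) ^ e := Nat.one_le_pow _ _ (by omega)
    rw [hℓ]
    nlinarith
  have hM : ∀ i ∈ Finset.range (g k + 1), h1 i * (ℓ + 1) ^ c1 ≤ M k * (n + 1) ^ (e * c1) := by
    intro i hi
    have h2 : h1 i ≤ ∑ i ∈ Finset.range (g k + 1), h1 i :=
      Finset.single_le_sum (fun _ _ => Nat.zero_le _) hi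
    calc h1 i * (ℓ + 1) ^ c1 ≤ (∑ i ∈ Finset.range (g k + 1), h1 i) *
          ((A k + 1) ^ c1 * (n + 1) ^ (e * c1)) := Nat.mul_le_mul h2 hℓ1
      _ = M k * (n + 1) ^ (e * c1) := by simp only [M]; ring
  refine ⟨bits (π k, (List.range (g k + 1)).map fun i => adv i ℓ), ?_, fun x hxn hxk => ?_⟩
  · rw [bits_length, sz_pair]
    have e1 := sz_listBool_le (π k)
    have e2 : sz ((List.range (g k + 1)).map fun i => adv i ℓ) ≤
        ((List.range (g k + 1)).map fun i => adv i ℓ).length *
          (M k * (n + 1) ^ (e * c1) + 1) + 1 := by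
      refine sz_le_length_mul _ _ fun a ha => ?_
      obtain ⟨i, hi, rfl⟩ := List.mem_map.1 ha
      rw [List.mem_range] at hi
      exact (hadv1 i ℓ).trans (hM i (Finset.mem_range.2 hi))
    rw [List.length_map, List.length_range] at e2
    generalize (n + 1) ^ (e * c1) = P at *
    have e3 : (g k + 1) * (M k * P + 1) ≤ (g k + 1) * (M k + 1) * P :=
      calc (g k + 1) * (M k * P + 1) ≤ (g k + 1) * ((M k + 1) * P) :=
            Nat.mul_le_mul_left _ (by nlinarith)
        _ = (g k + 1) * (M k + 1) * P := by ring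
    have e4 : 4 * (π k).length + 5 ≤ (4 * (π k).length + 5) * P := Nat.le_mul_of_pos_right _ hn1
    have e5 : (4 * (π k).length + 5 + (g k + 1) * (M k + 1) + M k) * P =
      (4 * (π k).length + 5) * P + (g k + 1) * (M k + 1) * P + M k * P := by ring
    simp only
    omega
  · obtain ⟨hyes, hpar⟩ := hred x
    rw [hxk] at hyes hpar
    set y := F (pairBits (π k) x) with hy
    have hylen : y.length ≤ ℓ := by
      refine (hC _).trans ?_
      rw [length_pairBits, hxn, hℓ]
      simp only [A]
      rw [mul_assoc, ← mul_pow]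
      refine Nat.mul_le_mul_left _ (Nat.pow_le_pow_left ?_ _)
      nlinarith
    cases hu : unbits (Graph × ℕ) y with
    | none =>
      have hno : x ∉ Q.yes := by
        rw [hyes]
        rintro ⟨a, ha, -⟩
        rw [← ha, unbits_bits] at hu
        cases hu
      refine ⟨fun _ => ⟨bits (none : Option γ), ?_, ?_⟩, fun _ => hno⟩
      · rw [bits_length, sz_none]
        exact Nat.one_le_iff_ne_zero.2 (by positivity)
      · rw [hV']
        refine ⟨_, _, unbits_bits _, unbits_bits _, ?_⟩
        unfold w1Test
        simp only [Option.elim_none]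
        rw [← hy, hu]
        rfl
    | some Gk =>
      obtain ⟨G, k'⟩ := Gk
      have hyb : bits (G, k') = y := bits_of_unbits hu
      have hk' : k' ≤ g k := by
        have := hpar
        rw [← hyb] at this
        unfold pClique at this
        rwa [param_ofCodes] at this
      have hsz : sz (G, k') ≤ ℓ := by
        rw [← bits_length, hyb]
        exact hylen
      have hyes' : x ∈ Q.yes ↔ HasClique G k' := by
        rw [hyes, ← hyb]
        exact mem_yes_ofCodes _ _ _
      have hget : ((List.range (g k + 1)).map fun i => adv i ℓ)[k']? = some (adv k' ℓ) := by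
        rw [List.getElem?_map, List.getElem?_range (by omega)]
        rfl
      rw [hyes']
      constructor
      · intro hno
        obtain ⟨w, hw1, hw2⟩ := (hadv2 k' ℓ G hsz).1 hno
        refine ⟨bits (some w), ?_, ?_⟩
        · rw [bits_length, sz_some]
          have e1 := hw1.trans (hM k' (Finset.mem_range.2 (by omega)))
          generalize (n + 1) ^ (e * c1) = P at *
          have e5 : (4 * (π k).length + 5 + (g k + 1) * (M k + 1) + M k) * P =
            (4 * (π k).length + 3 + (g k + 1) * (M k + 1)) * P + 2 * P + M k * P := by ring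
          have e6 := Nat.zero_le ((4 * (π k).length + 3 + (g k + 1) * (M k + 1)) * P)
          simp only
          omega
        · rw [hV']
          refine ⟨_, _, unbits_bits _, unbits_bits _, ?_⟩
          unfold w1Test
          simp only [Option.elim_some]
          rw [← hy, hu]
          simp only [Option.elim_some]
          rw [hget]
          exact hw2
      · rintro ⟨w, -, hw⟩
        rw [hV'] at hw
        obtain ⟨b, c, hb, hc, hw⟩ := hw
        rw [unbits_bits, Option.some.injEq] at hb
        subst hb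
        unfold w1Test at hw
        simp only at hw
        rw [← hy, hu] at hw
        cases c with
        | none => simp at hw
        | some w' =>
          simp only [Option.elim_some] at hw
          rw [hget] at hw
          exact (hadv2 k' ℓ G hsz).2 w' hw

end Pool.Agent.Q229.MW
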